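import Pool.Agent.H741R4.DH10

/-!
The Derrida-Hilhorst singular term `ε^(2α) log(1/ε)` for integer `α`: the expansion holds with a
constant `C ≥ 0`, and `C > 0` exactly when `E[Z^α log⁺ Z] < ∞`.
-/

open MeasureTheory ProbabilityTheory Filter Topology Asymptotics
open Pool.Agent.H741R4.DH

namespace Pool.Agent.Results.MP_132c94_pr.IntegerSingularity

theorem result {Ω : Type*} [MeasurableSpace Ω] (P : Measure Ω) [IsProbabilityMeasure P]
    (Z : ℕ → Ω → ℝ) (hmeas : ∀ n, Measurable (Z n)) (hindep : iIndepFun Z P)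
    (hident : ∀ n, IdentDistrib (Z n) (Z 0) P P) (hpos : ∀ᵐ ω ∂P, 0 < Z 0 ω)
    (hnonconst : ¬ ∃ c, ∀ᵐ ω ∂P, Z 0 ω = c) (p : ℕ) (hp : 1 ≤ p)
    (hone : ∫ ω, (Z 0 ω) ^ p ∂P = 1) :
    ∃ L : ℝ → ℝ,
      (∀ ε : ℝ, 0 < ε → ε ≤ 1 → ∀ᵐ ω ∂P, Tendsto
        (fun n : ℕ => Real.log (entryNorm (matProd ε (fun k => Z k ω) n)) / (n : ℝ)) atTop
        (𝓝 (L ε))) ∧
      ∃ l : ℕ → ℝ, (∀ k, 1 ≤ k → k < p → 0 < l k) ∧ ∃ C : ℝ, 0 ≤ C ∧
        (0 < C ↔ Integrable (fun ω => (Z 0 ω) ^ p * Real.log (Z 0 ω)) P) ∧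
        (fun ε : ℝ => L ε - ∑ k ∈ Finset.Icc 1 (p - 1), (-1) ^ (k + 1) * l k * ε ^ (2 * k)
          - (-1) ^ (p - 1) * C * ε ^ (2 * p) * Real.log (1 / ε))
          =o[𝓝[>] 0] (fun ε => ε ^ (2 * p) * Real.log (1 / ε)) := by
  have S : Setup P Z (p : ℝ) :=
    { prob := inferInstance
      meas := hmeas
      indep := hindep
      ident := hident
      pos := hpos
      nonconst := hnonconst
      hα := by exact_mod_cast hp
      one := by simpa only [Real.rpow_natCast] using hone }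
  refine ⟨fun ε => Lf P Z (ε ^ 2), ?_, ?_⟩
  · intro ε hε hε1
    exact S.lyap hε hε1
  · have h := S.main_eps hp
    simpa only [Real.rpow_natCast] using h

end Pool.Agent.Results.MP_132c94_pr.IntegerSingularity
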